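import Pool.Agent.H72.CH.Targets
import Pool.Agent.H44.FB.Basics

/-!
# Chains of equivalence relations: amalgamation
-/

set_option autoImplicit false
set_option linter.unusedVariables false

namespace Pool.Agent.H59.CH

open Pool.Agent.H72.CH
open Pool.Agent.H68.BP Pool.Agent.H58.SF Pool.Agent.H53.NR
open Pool.Agent.H57.AR (tp ty Ty)
open Pool.Agent.H57.LH (Hmg)
open Pool.Agent.H44.KR (TpOn)
open Pool.Agent.H44.FB (tpo_refl tpo_symm tpo_trans tpo_comp tpo_of_tp comp_of_tp eq_of_tp)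
open Function

/-- levels of pairs depend only on types -/
theorem lv_of_tp {V : Type} {ρ : Sig} {𝔹 : Str ρ V} {m : ℕ} {lv : V → V → ℕ} (hV : HV 𝔹 m lv)
    {W : Type} {x y : W → V} (h : tp 𝔹 x = tp 𝔹 y) (a b : W) :
    lv (x a) (x b) = lv (y a) (y b) := by
  have h1 := comp_of_tp h (![a, b] : Fin 2 → W)
  exact hV.inv _ _ h1

/-- the level of a new and an old element in the amalgam over `A` -/
noncomputable def crs {V W : Type} [Finite W] (lv : V → V → ℕ) (A : Set W) (x : W → V) (w : W)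
    (v : V) : ℕ :=
  (Set.toFinite A).toFinset.sup fun a => min (lv (x w) (x a)) (lv (x a) v)

theorem le_crs {V W : Type} [Finite W] (lv : V → V → ℕ) (A : Set W) (x : W → V) (w : W)
    (v : V) (j : ℕ) (hj : 1 ≤ j) :
    j ≤ crs lv A x w v ↔ ∃ a ∈ A, j ≤ lv (x w) (x a) ∧ j ≤ lv (x a) v := by
  unfold crs
  rw [Finset.le_sup_iff (show (⊥ : ℕ) < j from hj)]
  constructor
  · rintro ⟨a, ha, h⟩
    exact ⟨a, by simpa using ha, (le_min_iff.1 h).1, (le_min_iff.1 h).2⟩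
  · rintro ⟨a, ha, h1, h2⟩
    exact ⟨a, by simpa using ha, le_min h1 h2⟩

/-- the chain on the amalgam -/
noncomputable def aml {V W : Type} [Finite W] (lv : V → V → ℕ) (A : Set W) (x : W → V)
    (F : Finset V) : W ⊕ {v // v ∈ F} → W ⊕ {v // v ∈ F} → ℕ
  | Sum.inl w, Sum.inl w' => lv (x w) (x w')
  | Sum.inl w, Sum.inr v => crs lv A x w v.1
  | Sum.inr v, Sum.inl w => crs lv A x w v.1
  | Sum.inr v, Sum.inr v' => lv v.1 v'.1

theorem plev_of {X : Type} {m : ℕ} {lam : X → X → ℕ} (h1 : ∀ x y, lam x y ≤ m)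
    (h2 : ∀ x, lam x x = m) (h3 : ∀ x y, lam x y = lam y x)
    (h4 : ∀ x y z j, 1 ≤ j → j ≤ lam x y → j ≤ lam y z → j ≤ lam x z) : PLev m lam := by
  refine ⟨h1, h2, h3, fun x y z => ?_⟩
  rcases Nat.eq_zero_or_pos (min (lam x y) (lam y z)) with h | h
  · rw [h]
    exact Nat.zero_le _
  · exact h4 x y z _ h (min_le_left _ _) (min_le_right _ _)

theorem plev_tr {X : Type} {m : ℕ} {lam : X → X → ℕ} (h : PLev m lam) {x y z : X} {j : ℕ}
    (h1 : j ≤ lam x y) (h2 : j ≤ lam y z) : j ≤ lam x z :=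
  (le_min h1 h2).trans (h.ult x y z)

theorem plev_aml {V W : Type} [Finite W] {m : ℕ} {lv : V → V → ℕ} (hl : PLev m lv) (A : Set W)
    (x : W → V) (F : Finset V) : PLev m (aml lv A x F) := by
  have hs : ∀ u v : V, ∀ j, j ≤ lv u v → j ≤ lv v u := fun u v j h => by rwa [hl.sym v u]
  have hsym : ∀ p q, aml lv A x F p q = aml lv A x F q p := by
    intro p q
    rcases p with w | v <;> rcases q with w' | v'
    · exact hl.sym _ _
    · rfl
    · rfl
    · exact hl.sym _ _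
  refine plev_of ?_ ?_ hsym ?_
  · intro p q
    rcases p with w | v <;> rcases q with w' | v'
    · exact hl.le _ _
    · exact Finset.sup_le fun a _ => (min_le_left _ _).trans (hl.le _ _)
    · exact Finset.sup_le fun a _ => (min_le_left _ _).trans (hl.le _ _)
    · exact hl.le _ _
  · intro p
    rcases p with w | v
    · exact hl.self _
    · exact hl.self _
  · intro p q r j hj h1 h2
    rcases p with w | v <;> rcases q with w' | v' <;> rcases r with w'' | v''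
    · exact plev_tr hl h1 h2
    · obtain ⟨a, ha, h3, h4⟩ := (le_crs lv A x w' v''.1 j hj).1 h2
      exact (le_crs lv A x w v''.1 j hj).2 ⟨a, ha, plev_tr hl h1 h3, h4⟩
    · obtain ⟨a, ha, h3, h4⟩ := (le_crs lv A x w v'.1 j hj).1 h1
      obtain ⟨b, hb, h5, h6⟩ := (le_crs lv A x w'' v'.1 j hj).1 h2
      exact plev_tr hl (plev_tr hl h3 h4) (plev_tr hl (hs _ _ _ h6) (hs _ _ _ h5))
    · obtain ⟨a, ha, h3, h4⟩ := (le_crs lv A x w v'.1 j hj).1 h1
      exact (le_crs lv A x w v''.1 j hj).2 ⟨a, ha, h3, plev_tr hl h4 h2⟩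
    · obtain ⟨a, ha, h3, h4⟩ := (le_crs lv A x w' v.1 j hj).1 h1
      exact (le_crs lv A x w'' v.1 j hj).2 ⟨a, ha, plev_tr hl (hs _ _ _ h2) h3, h4⟩
    · obtain ⟨a, ha, h3, h4⟩ := (le_crs lv A x w' v.1 j hj).1 h1
      obtain ⟨b, hb, h5, h6⟩ := (le_crs lv A x w' v''.1 j hj).1 h2
      exact plev_tr hl (plev_tr hl (hs _ _ _ h4) (hs _ _ _ h3)) (plev_tr hl h5 h6)
    · obtain ⟨a, ha, h3, h4⟩ := (le_crs lv A x w'' v'.1 j hj).1 h2
      exact (le_crs lv A x w'' v.1 j hj).2 ⟨a, ha, h3, plev_tr hl h4 (hs _ _ _ h1)⟩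
    · exact plev_tr hl h1 h2

theorem pf_AML : T_AML := by
  classical
  intro V ρ 𝔹 m lv hV hE W _ A x y F hxy
  have hl := hV.lev.pl
  obtain ⟨x1, hx1, hx1A⟩ := hV.hmg W A x y hxy
  let F1 : Finset V := F ∪ (Set.toFinite A).toFinset.image y
  have hF1 : ∀ v ∈ F, v ∈ F1 := fun v hv => Finset.mem_union_left _ hv
  have hA1 : ∀ a ∈ A, y a ∈ F1 := fun a ha =>
    Finset.mem_union_right _ (Finset.mem_image.2 ⟨a, by simpa using ha, rfl⟩)
  let f : W ⊕ {v // v ∈ F1} → V := Sum.elim x1 Subtype.val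
  let lam := aml lv A x1 F1
  have hle : ∀ p q, lam p q ≤ lv (f p) (f q) := by
    intro p q
    have hc : ∀ w v, crs lv A x1 w v ≤ lv (x1 w) v := by
      intro w v
      refine Finset.sup_le fun a _ => ?_
      exact hl.ult _ _ _
    rcases p with w | v <;> rcases q with w' | v'
    · exact le_rfl
    · exact hc w v'.1
    · show crs lv A x1 w' v.1 ≤ lv v.1 (x1 w')
      rw [hl.sym]
      exact hc w' v.1
    · exact le_rfl
  obtain ⟨g, hg, hgT⟩ := hE (W ⊕ {v // v ∈ F1}) lam Bool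
    (fun b => if b then Set.range Sum.inl else Set.range Sum.inr) f (plev_aml hl A x1 F1) hle
    (by
      intro b
      cases b
      · rintro _ ⟨v, rfl⟩ _ ⟨v', rfl⟩
        rfl
      · rintro _ ⟨w, rfl⟩ _ ⟨w', rfl⟩
        rfl)
  have hg1 : TpOn 𝔹 (Set.range Sum.inl) f g := hgT true
  have hg2 : TpOn 𝔹 (Set.range Sum.inr) f g := hgT false
  obtain ⟨g', hg', hgi⟩ := hV.hmg (W ⊕ {v // v ∈ F1}) (Set.range Sum.inr) g f (tpo_symm hg2)
  have hgv : ∀ v : {v // v ∈ F1}, g' (Sum.inr v) = v.1 := fun v => hgi _ ⟨v, rfl⟩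
  have hlv : ∀ p q, lv (g' p) (g' q) = lam p q := by
    intro p q
    rw [lv_of_tp hV hg' p q, hg]
  refine ⟨fun w => g' (Sum.inl w), ?_, ?_, ?_⟩
  · have h1 : tp 𝔹 (fun w => g' (Sum.inl w)) = tp 𝔹 (fun w => g (Sum.inl w)) :=
      comp_of_tp hg' Sum.inl
    have h2 : tp 𝔹 (fun w => f (Sum.inl w)) = tp 𝔹 (fun w => g (Sum.inl w)) :=
      tpo_comp hg1 Sum.inl fun w => ⟨w, rfl⟩
    rw [h1, ← h2]
    exact hx1
  · intro a ha
    have h1 : lam (Sum.inl a) (Sum.inr ⟨y a, hA1 a ha⟩) = m := by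
      refine le_antisymm ((plev_aml hl A x1 F1).le _ _) ?_
      show m ≤ crs lv A x1 a (y a)
      rcases Nat.eq_zero_or_pos m with hm | hm
      · rw [hm]
        exact Nat.zero_le _
      · refine (le_crs lv A x1 a (y a) m hm).2 ⟨a, ha, (hl.self _).ge, ?_⟩
        rw [hx1A a ha, hl.self]
    have h2 := hV.lev.eq _ _ ((hlv _ _).trans h1)
    exact h2.trans (hgv _)
  · intro w v hv j hj h
    have h1 : j ≤ crs lv A x1 w v := by
      have h2 := hlv (Sum.inl w) (Sum.inr ⟨v, hF1 v hv⟩)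
      rw [hgv] at h2
      have h3 : lv (g' (Sum.inl w)) v = crs lv A x1 w v := h2
      rw [← h3]
      exact h
    obtain ⟨a, ha, h3, h4⟩ := (le_crs lv A x1 w v j hj).1 h1
    refine ⟨a, ha, ?_, ?_⟩
    · rw [← lv_of_tp hV hx1 w a]
      exact h3
    · rw [← hx1A a ha]
      exact h4

end Pool.Agent.H59.CH
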