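import Pool.Agent.H72.CH.Targets2

/-!
# Chains of equivalence relations: colourings of infinite graphs
-/

set_option autoImplicit false
set_option linter.unusedVariables false

namespace Pool.Agent.H59.CH

open Pool.Agent.H72.CH

theorem dbe_loop {Y : Type} {R : Y → Y → Prop}
    (h : ∀ (k : ℕ) (A : Fin k → Fin k → Prop) (η : Fin k → Y), (∀ g g', A g g' → ¬ A g' g) →
      (∀ g g', A g g' → R (η g) (η g')) → ∃ c : Fin k → Fin 3, ∀ g g', A g g' → c g ≠ c g')
    (y : Y) : ¬ R y y := by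
  intro hy
  obtain ⟨c, hc⟩ := h 4 (fun g g' => g < g') (fun _ => y) (fun g g' h1 h2 => lt_asymm h1 h2)
    fun _ _ _ => hy
  have hinj : Function.Injective c := by
    intro a b hab
    by_contra hne
    rcases lt_or_gt_of_ne hne with h1 | h1
    · exact hc _ _ h1 hab
    · exact hc _ _ h1 hab.symm
  have := Fintype.card_le_of_injective c hinj
  simp at this

theorem pf_DBE : T_DBE := by
  classical
  intro Y R h
  have hloop := dbe_loop h
  let G : SimpleGraph Y :=
    { Adj := fun x y => x ≠ y ∧ (R x y ∨ R y x)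
      symm := ⟨fun x y hxy => ⟨hxy.1.symm, hxy.2.symm⟩⟩
      loopless := ⟨fun x hx => hx.1 rfl⟩ }
  have key : ∀ G' : G.Subgraph, G'.verts.Finite →
      Nonempty (G'.coe →g (⊤ : SimpleGraph (Fin 3))) := by
    intro G' hfin
    haveI : Finite G'.verts := hfin
    obtain ⟨k, ⟨e⟩⟩ := Finite.exists_equiv_fin G'.verts
    let η : Fin k → Y := fun g => (e.symm g).1
    let A : Fin k → Fin k → Prop := fun g g' => G'.Adj (η g) (η g') ∧ R (η g) (η g') ∧
      (¬ R (η g') (η g) ∨ g < g')
    obtain ⟨c, hc⟩ := h k A η (by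
      rintro g g' ⟨h1, h2, h3⟩ ⟨h4, h5, h6⟩
      rcases h3 with h3 | h3
      · exact h3 h5
      · rcases h6 with h6 | h6
        · exact h6 h2
        · exact lt_asymm h3 h6) (fun g g' hg => hg.2.1)
    have hηe : ∀ v : G'.verts, η (e v) = v.1 := fun v => by
      show (e.symm (e v)).1 = v.1
      rw [e.symm_apply_apply]
    refine ⟨⟨fun v => c (e v), ?_⟩⟩
    intro v w hvw
    have h1 : G'.Adj v.1 w.1 := hvw
    have h2 : G.Adj v.1 w.1 := h1.adj_sub
    have h3 : e v ≠ e w := by
      intro h4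
      exact h2.1 (congrArg Subtype.val (e.injective h4))
    show c (e v) ≠ c (e w)
    by_cases hvR : R v.1 w.1
    · by_cases hwR : R w.1 v.1
      · rcases lt_or_gt_of_ne h3 with h4 | h4
        · exact hc _ _ ⟨by rw [hηe, hηe]; exact h1, by rw [hηe, hηe]; exact hvR, Or.inr h4⟩
        · exact (hc _ _ ⟨by rw [hηe, hηe]; exact h1.symm, by rw [hηe, hηe]; exact hwR,
            Or.inr h4⟩).symm
      · exact hc _ _ ⟨by rw [hηe, hηe]; exact h1, by rw [hηe, hηe]; exact hvR,
          Or.inl (by rw [hηe, hηe]; exact hwR)⟩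
    · have hwR : R w.1 v.1 := h2.2.resolve_left hvR
      exact (hc _ _ ⟨by rw [hηe, hηe]; exact h1.symm, by rw [hηe, hηe]; exact hwR,
        Or.inl (by rw [hηe, hηe]; exact hvR)⟩).symm
  obtain ⟨f⟩ := SimpleGraph.nonempty_hom_of_forall_finite_subgraph_hom (G := G)
    (F := (⊤ : SimpleGraph (Fin 3))) fun G' hG' => Classical.choice (key G' hG')
  refine ⟨f, fun x y hxy => ?_⟩
  have hne : x ≠ y := fun h1 => hloop y (h1 ▸ hxy)
  have h1 : G.Adj x y := ⟨hne, Or.inl hxy⟩
  exact (f.map_rel h1 :)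

end Pool.Agent.H59.CH
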