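import Pool.Agent.H72.CH.Targets
import Pool.Agent.H44.FB.Basics

/-!
# Chains of equivalence relations: paths with given types
-/

set_option autoImplicit false
set_option linter.unusedVariables false

namespace Pool.Agent.H59.CH

open Pool.Agent.H72.CH
open Pool.Agent.H68.BP Pool.Agent.H58.SF Pool.Agent.H53.NR
open Pool.Agent.H57.AR (tp ty Ty)
open Pool.Agent.H57.LH (Hmg)
open Pool.Agent.H44.KR (TpOn)
open Function

theorem pf_GLU : T_GLU := by
  intro V ρ 𝔹 m lv hV n
  induction n with
  | zero =>
    intro p
    obtain ⟨v⟩ := hV.ne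
    exact ⟨fun _ => v, fun k => k.elim0⟩
  | succ n ih =>
    intro p
    obtain ⟨f, hf⟩ := ih (fun k => p k.castSucc)
    have hT : TpOn 𝔹 ({0} : Set (Fin 2)) (p (Fin.last n)) (fun _ => f (Fin.last n)) := by
      refine ⟨?_, ?_⟩
      · intro a ha b hb
        rw [Set.mem_singleton_iff] at ha hb
        subst ha
        subst hb
        simp
      · intro l z hz
        have h1 : (fun i => p (Fin.last n) (z i)) = fun _ => p (Fin.last n) 0 := by
          funext i
          have := hz i
          rw [Set.mem_singleton_iff] at this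
          rw [this]
        rw [h1]
        exact iff_of_eq (congrFun (hV.one (p (Fin.last n) 0) (f (Fin.last n))) l)
    obtain ⟨x', hx', hx0⟩ := hV.hmg (Fin 2) {0} (p (Fin.last n)) (fun _ => f (Fin.last n)) hT
    have hx0' : x' 0 = f (Fin.last n) := hx0 0 (Set.mem_singleton 0)
    refine ⟨Fin.snoc f (x' 1), ?_⟩
    intro k
    refine Fin.lastCases ?_ (fun k' => ?_) k
    · have h1 : (![(Fin.snoc f (x' 1) : Fin (n + 2) → V) (Fin.last n).castSucc,
          (Fin.snoc f (x' 1) : Fin (n + 2) → V) (Fin.last n).succ] : Fin 2 → V) = x' := by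
        funext i
        fin_cases i
        · show (Fin.snoc f (x' 1) : Fin (n + 2) → V) (Fin.last n).castSucc = x' 0
          rw [Fin.snoc_castSucc, hx0']
        · show (Fin.snoc f (x' 1) : Fin (n + 2) → V) (Fin.last n).succ = x' 1
          rw [Fin.succ_last, Fin.snoc_last]
      rw [h1]
      exact hx'
    · have h1 : (Fin.snoc f (x' 1) : Fin (n + 2) → V) k'.castSucc.castSucc = f k'.castSucc :=
        Fin.snoc_castSucc ..
      have h2 : (Fin.snoc f (x' 1) : Fin (n + 2) → V) k'.castSucc.succ = f k'.succ := by
        rw [Fin.succ_castSucc]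
        exact Fin.snoc_castSucc ..
      rw [h1, h2]
      exact hf k'

end Pool.Agent.H59.CH
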