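import Pool.Agent.H72.CH.Targets2
import Pool.Agent.H44.FB.Basics

/-!
# Chains of equivalence relations: from local polymorphisms to solutions of the fibres
-/

set_option autoImplicit false
set_option linter.unusedVariables false

namespace Pool.Agent.H59.CH

open Pool.Agent.H72.CH
open Pool.Agent.H68.BP Pool.Agent.H58.SF Pool.Agent.H53.NR
open Pool.Agent.H53.GC (arP relP)
open Pool.Agent.H57.AR (tp ty Ty)
open Pool.Agent.H57.SO (sigF)
open Pool.Agent.H57.LH (Hmg SS)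
open Pool.Agent.H44.KR (TpOn Tyi)
open Pool.Agent.H44.FB (fbI LocP tyI sy tpo_comp)
open Pool.Agent.H35.FB (PP)
open Function

section

variable {V N : Type} {ρ σ δ : Sig} {m n q : ℕ}

theorem pis_finite (t : Fin 3 → Fin n → N) (u : PP → Fin q → N) (dum : Fin m → N) :
    (Pis t u dum).Finite := by
  have h : Pis t u dum =
      Set.range (fun (b : (Fin n ⊕ Fin n) ⊕ Fin q) (p : PP) => wit t u p b) ∪
        Set.range (fun (i : Fin m) (_ : PP) => dum i) := by
    ext π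
    constructor
    · rintro (⟨b, rfl⟩ | ⟨i, rfl⟩)
      · exact Or.inl ⟨b, rfl⟩
      · exact Or.inr ⟨i, rfl⟩
    · rintro (⟨b, rfl⟩ | ⟨i, rfl⟩)
      · exact Or.inl ⟨b, rfl⟩
      · exact Or.inr ⟨i, rfl⟩
  rw [h]
  exact (Set.finite_range _).union (Set.finite_range _)

theorem tts_pis (t : Fin 3 → Fin n → N) (u : PP → Fin q → N) (dum : Fin m → N) :
    ∀ τ ∈ TTs t dum, lfP τ ∈ Pis t u dum ∧ rtP τ ∈ Pis t u dum := by
  rintro τ (⟨i, rfl⟩ | ⟨i, rfl⟩)
  · exact ⟨Or.inl ⟨Sum.inl (Sum.inl i), rfl⟩, Or.inl ⟨Sum.inl (Sum.inr i), rfl⟩⟩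
  · exact ⟨Or.inr ⟨i, rfl⟩, Or.inr ⟨i, rfl⟩⟩

theorem fst_surj (a : Fin 3) : ∃ p : PP, p.1.1 = a := ⟨⟨(a, a + 1), by revert a; decide⟩, rfl⟩

theorem snd_surj (a : Fin 3) : ∃ p : PP, p.1.2 = a := ⟨⟨(a + 1, a), by revert a; decide⟩, rfl⟩

/-- the relation of the names holds if it holds on the tuples in the range -/
theorem relP_nm {P B₀ : Type} {𝔸 : Str σ V} {st : N → Fin m} {β : (Fin m → N) → V} (M : ℕ)
    (u : P → B₀ → N) (w : B₀ → N) (s : Option (Fin (sigN σ m).m))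
    (z : Fin (arP (sigN σ m) M s) → B₀)
    (hd : ∀ (l : Fin σ.m) (z' : Fin (σ.ar l * m) → B₀), (∀ c, ∃ c', z' c = z c') →
      (∀ p, NmS 𝔸 st β l (fun i => u p (z' i))) → NmS 𝔸 st β l (fun i => w (z' i)))
    (h : ∀ p, relP (NmS 𝔸 st β) M s (fun i => u p (z i))) :
    relP (NmS 𝔸 st β) M s (fun i => w (z i)) := by
  cases s with
  | none => trivial
  | some l => exact hd l z (fun c => ⟨c, rfl⟩) h

theorem lev_vfl {𝔹 : Str ρ V} {lv : V → V → ℕ} {𝔻 : Str δ N} {st : N → Fin m}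
    {β : (Fin m → N) → V} (nm : Nm 𝔹 m lv 𝔻 st β) {e : V → V}
    (he : ∀ x y, lv (e x) (e y) = lv x y) {PS : Set (PP → N)} {w w' : Fin m → PP → N}
    (hw : FP st PS w) (hw' : FP st PS w') (p : PP) (j : ℕ) (hj : j ≤ m) :
    j ≤ lv (vfl e β w p) (vfl e β w' p) ↔ Agr j (fun i => w i p) (fun i => w' i p) := by
  show j ≤ lv (e _) (e _) ↔ _
  rw [he]
  exact nm.lev ⟨fun i => w i p, fun i => (hw i).2 p⟩ ⟨fun i => w' i p, fun i => (hw' i).2 p⟩ j hj

open Classical in
/-- the value of a profile -/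
noncomputable def asP (st : N → Fin m) (x : (PP → N) → N) (n0 : N) (π : PP → N) : N :=
  if ∃ i, ∀ p, st (π p) = i then x π else n0

end

theorem pf_PPB : T_PPB := by
  classical
  intro hGLN V N ρ σ δ 𝔹 m lv 𝔸 𝔻 st β hV hT nm hnex M n q φ t u dum e U U' hφ hdum he helv heR
    hU hUU hF k A X hA hX hC
  have : Nonempty V := hV.ne
  obtain ⟨n0⟩ := nm.hb.ne
  choose! F hFL hFX using hX
  have hv1 : ∀ g g', A g g' → ∀ w w', FP st (Pis t u dum) w → FP st (Pis t u dum) w' →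
      ∀ j ≤ m, Agr j w w' → j ≤ lv (F g g' (vfl e β w)) (F g g' (vfl e β w')) := by
    intro g g' hg w w' hw hw' j hj hag
    refine (hF (F g g') (hFL g g' hg) _ (hU w hw) _ (hU w' hw')).1 j ?_
    intro p
    exact (lev_vfl nm helv hw hw' p j hj).2 (fun i hi => congrFun (hag i hi) p)
  let Λ : Type := {iz : Σ i : Fin (sigF (SS 𝔻) (sigN σ m) M).m,
    (Fin ((sigF (SS 𝔻) (sigN σ m) M).ar i) → (Fin n ⊕ Fin n) ⊕ Fin q) //
      Atom.rel iz.1 iz.2 ∈ φ}
  let S : Λ → Set (PP → N) := fun a => {π | ∃ c, π = fun p => wit t u p (a.1.2 c)}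
  have hv3 : ∀ a g g', A g g' → ∀ w w', FP st (Pis t u dum) w → FP st (Pis t u dum) w' →
      (∀ i, w i ∈ S a ∧ w' i ∈ S a) →
      ∀ j ≤ m, j ≤ lv (F g g' (vfl e β w)) (F g g' (vfl e β w')) → Agr j w w' := by
    intro a g g' hg w w' hw hw' hS j hj hlv
    by_contra hna
    have hex : ∃ i : ℕ, ∃ hi : i < m, i < j ∧ w ⟨i, hi⟩ ≠ w' ⟨i, hi⟩ := by
      by_contra hcon
      apply hna
      intro i hi
      by_contra hne
      exact hcon ⟨i.1, i.2, hi, hne⟩
    obtain ⟨l, hl⟩ : ∃ l, l = Nat.find hex := ⟨_, rfl⟩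
    obtain ⟨hlm, hlj, hne⟩ := Nat.find_spec hex
    have hmin : ∀ i : Fin m, (i : ℕ) < Nat.find hex → w i = w' i := by
      intro i hi
      by_contra h
      exact Nat.find_min hex hi ⟨i.2, hi.trans hlj, h⟩
    have hdiff : ∀ p, w ⟨Nat.find hex, hlm⟩ p ≠ w' ⟨Nat.find hex, hlm⟩ p := by
      intro p hp
      obtain ⟨⟨c, hc⟩, c', hc'⟩ := hS ⟨Nat.find hex, hlm⟩
      rw [hc, hc'] at hp
      have h1 := (hφ p _ a.2 : _ ∧ _ ∧ (∀ a' b', wit t u p (a.1.2 a') = wit t u p (a.1.2 b') →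
        a' = b' ∨ tyI 𝔻 (sigN σ m) M a.1.1 a' ∈ (∅ : Set (Fin δ.m → Prop))) ∧ _).2.2.1 c c' hp
      rcases h1 with h1 | h1
      · exact hne (by rw [hc, hc', h1])
      · exact h1
    have hlev : ∀ p, lv (vfl e β w p) (vfl e β w' p) = Nat.find hex := by
      intro p
      have h1 := (lev_vfl nm helv hw hw' p (Nat.find hex) hlm.le).2
        (fun i hi => congrFun (hmin i hi) p)
      have h2 : ¬ Nat.find hex + 1 ≤ lv (vfl e β w p) (vfl e β w' p) := fun h =>
        hdiff p ((lev_vfl nm helv hw hw' p (Nat.find hex + 1) hlm).1 h ⟨Nat.find hex, hlm⟩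
          (Nat.lt_succ_self _))
      omega
    have h3 := (hF (F g g') (hFL g g' hg) _ (hU w hw) _ (hU w' hw')).2 (Nat.find hex) hlm
      (fun p => ⟨hlev p, heR _ _⟩)
    omega
  obtain ⟨x, y, hx1, hx2, hx3⟩ := hGLN V N ρ δ 𝔹 m lv 𝔻 st β hV nm hnex k A hA (Pis t u dum)
    (TTs t dum) dum (pis_finite t u dum) (tts_pis t u dum)
    (fun i => ⟨hdum i, Or.inr ⟨i, rfl⟩⟩) (fun g g' w => F g g' (vfl e β w)) X hv1
    (fun g g' hg τ hτ => ⟨(hFX g g' hg τ hτ).1.symm, (hFX g g' hg τ hτ).2.symm⟩) hC Λ S hv3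
  let T : Fin k → Fin n → N := fun g i =>
    if ∃ s, ∀ a, st (t a i) = s then y g (fun a => t a i) else n0
  refine ⟨T, fun g g' hg => ?_⟩
  let asg : (Fin n ⊕ Fin n) ⊕ Fin q → N := fun b => asP st (x g g') n0 (fun p => wit t u p b)
  have hasg : (Sum.elim (Sum.elim (T g) (T g')) (fun c => asg (Sum.inr c)) :
      (Fin n ⊕ Fin n) ⊕ Fin q → N) = asg := by
    funext b
    rcases b with (i | i) | c
    · show T g i = asP st (x g g') n0 (fun p : PP => t p.1.1 i)
      by_cases h : ∃ s, ∀ a, st (t a i) = s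
      · have h1 : T g i = y g (fun a => t a i) := if_pos h
        have h2 : asP st (x g g') n0 (fun p : PP => t p.1.1 i) =
            x g g' (fun p : PP => t p.1.1 i) := by
          obtain ⟨s, hs⟩ := h
          exact if_pos ⟨s, fun p => hs _⟩
        rw [h1, h2]
        exact (hx2 g g' hg (fun a => t a i) (Or.inl ⟨i, rfl⟩) h).1.symm
      · have h1 : T g i = n0 := if_neg h
        have h2 : asP st (x g g') n0 (fun p : PP => t p.1.1 i) = n0 := by
          refine if_neg ?_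
          rintro ⟨s, hs⟩
          refine h ⟨s, fun a => ?_⟩
          obtain ⟨p, rfl⟩ := fst_surj a
          exact hs p
        rw [h1, h2]
    · show T g' i = asP st (x g g') n0 (fun p : PP => t p.1.2 i)
      by_cases h : ∃ s, ∀ a, st (t a i) = s
      · have h1 : T g' i = y g' (fun a => t a i) := if_pos h
        have h2 : asP st (x g g') n0 (fun p : PP => t p.1.2 i) =
            x g g' (fun p : PP => t p.1.2 i) := by
          obtain ⟨s, hs⟩ := h
          exact if_pos ⟨s, fun p => hs _⟩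
        rw [h1, h2]
        exact (hx2 g g' hg (fun a => t a i) (Or.inl ⟨i, rfl⟩) h).2.symm
      · have h1 : T g' i = n0 := if_neg h
        have h2 : asP st (x g g') n0 (fun p : PP => t p.1.2 i) = n0 := by
          refine if_neg ?_
          rintro ⟨s, hs⟩
          refine h ⟨s, fun a => ?_⟩
          obtain ⟨p, rfl⟩ := snd_surj a
          exact hs p
        rw [h1, h2]
    · rfl
  refine ⟨fun c => asg (Sum.inr c), fun a ha => ?_⟩
  rw [hasg]
  cases a with
  | eq b b' =>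
    have h : (fun p => wit t u p b) = fun p => wit t u p b' := funext fun p => hφ p _ ha
    show asP st (x g g') n0 (fun p => wit t u p b) = asP st (x g g') n0 (fun p => wit t u p b')
    rw [h]
  | rel i z =>
    have h' : ∀ p, 1 ≤ (sigF (SS 𝔻) (sigN σ m) M).ar i ∧
        (∀ a, ty 𝔻 (wit t u p (z a)) = tyI 𝔻 (sigN σ m) M i a) ∧
        (∀ a b, wit t u p (z a) = wit t u p (z b) →
          a = b ∨ tyI 𝔻 (sigN σ m) M i a ∈ (∅ : Set (Fin δ.m → Prop))) ∧
        relP (NmS 𝔸 st β) M (sy 𝔻 (sigN σ m) M i).1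
          (fun a => wit t u p (z ((sy 𝔻 (sigN σ m) M i).2.2.1 a))) := fun p => hφ p _ ha
    obtain ⟨p0⟩ := (inferInstance : Nonempty PP)
    have hsrt : ∀ a p, st (wit t u p (z a)) = st (wit t u p0 (z a)) := fun a p =>
      (nm.srt _ _).1 (((h' p).2.1 a).trans ((h' p0).2.1 a).symm)
    have hasz : ∀ a, asg (z a) = x g g' (fun p => wit t u p (z a)) := fun a =>
      if_pos ⟨_, hsrt a⟩
    have hst : ∀ a, st (asg (z a)) = st (wit t u p0 (z a)) := by
      intro a
      rw [hasz]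
      exact (hx1 g g' hg).2 _ (Or.inl ⟨z a, rfl⟩) _ (hsrt a)
    refine ⟨(h' p0).1, fun a => ?_, fun a b hab => Or.inl ?_, ?_⟩
    · exact ((nm.srt _ _).2 (hst a)).trans ((h' p0).2.1 a)
    · have hab' : asg (z a) = asg (z b) := hab
      rw [hasz, hasz] at hab'
      have h2 := (hx1 g g' hg).1 ⟨Or.inl ⟨z a, rfl⟩, ⟨_, hsrt a⟩⟩
        ⟨Or.inl ⟨z b, rfl⟩, ⟨_, hsrt b⟩⟩ hab'
      rcases (h' p0).2.2.1 a b (congrFun h2 p0) with h3 | h3
      · exact h3
      · exact h3.elim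
    · refine relP_nm M (wit t u) asg (sy 𝔻 (sigN σ m) M i).1
        (fun a => z ((sy 𝔻 (sigN σ m) M i).2.2.1 a)) ?_ fun p => (h' p).2.2.2
      intro l z' hz' hp
      have hs : ∀ (c : Fin (σ.ar l) × Fin m) (p : PP),
          st (wit t u p (z' (finProdFinEquiv c))) = c.2 := fun c p => (hp p).1 c
      obtain ⟨wf, hwfd⟩ : ∃ wf : Fin (σ.ar l) → Fin m → PP → N,
          wf = fun a i p => wit t u p (z' (finProdFinEquiv (a, i))) := ⟨_, rfl⟩
      have hwf : ∀ a, FP st (Pis t u dum) (wf a) := by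
        intro a j
        rw [hwfd]
        exact ⟨Or.inl ⟨z' (finProdFinEquiv (a, j)), rfl⟩, fun p => hs (a, j) p⟩
      have hwS : ∀ a j, wf a j ∈ S ⟨⟨i, z⟩, ha⟩ := by
        intro a j
        obtain ⟨c', hc'⟩ := hz' (finProdFinEquiv (a, j))
        refine ⟨(sy 𝔻 (sigN σ m) M i).2.2.1 c', ?_⟩
        rw [hwfd]
        funext p
        show wit t u p (z' (finProdFinEquiv (a, j))) = _
        rw [hc']
      have h1 : 𝔸 l (fun a => F g g' (vfl e β (wf a))) := by
        refine hFL g g' hg l _ (fun a => hUU (hU _ (hwf a))) (fun p => ?_)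
        have h2 := he l _ (hp p).2
        rw [hwfd]
        exact h2
      have h2 : 𝔸 l (fun a => β (fun j => x g g' (wf a j))) :=
        hT l _ _ h1 (tpo_comp (hx3 ⟨⟨i, z⟩, ha⟩ g g' hg) wf (fun a => ⟨hwf a, hwS a⟩)).symm
      have hasz' : ∀ c : Fin (σ.ar l) × Fin m, asg (z' (finProdFinEquiv c)) =
          x g g' (fun p => wit t u p (z' (finProdFinEquiv c))) := fun c =>
        if_pos ⟨c.2, fun p => hs c p⟩
      refine ⟨fun c => ?_, ?_⟩
      · show st (asg (z' (finProdFinEquiv c))) = c.2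
        rw [hasz']
        exact (hx1 g g' hg).2 _ (Or.inl ⟨z' (finProdFinEquiv c), rfl⟩) c.2 (hs c)
      · show 𝔸 l (fun a => β (fun j => asg (z' (finProdFinEquiv (a, j)))))
        have h3 : (fun a => β (fun j => asg (z' (finProdFinEquiv (a, j))))) =
            fun a => β (fun j => x g g' (wf a j)) := by
          funext a
          congr 1
          funext j
          rw [hasz', hwfd]
        rw [h3]
        exact h2

end Pool.Agent.H59.CH
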